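import Pool.Agent.Y472.J.Fin
import Pool.Agent.H756R3.J.Cont
import Pool.Agent.H105R3.JSanCurl
import Pool.Agent.H309R4.Jones.SanU
import Pool.Agent.H550R3.Jones.SanSkein699

/-!
# The complexified volume conjecture for closed 3-braids with large exponents

The links are the closures of the 3-braids
`(s_1 s_2 s_1)^{2 m} s_1^{a_1} s_2^{b_1} ⋯ s_1^{a_k} s_2^{b_k}` (`m` full twists, any integer, and
`2 k` twist regions in a cycle, any `k ≥ 1`) with integers `a_i`, `b_i` of any signs, whose absolute
values are at least an absolute constant, except for `k = 1`, `m = 0` (connected sums of two torus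
links).  They are in general not arborescent.

The invariants are defined from the R-matrix of `U_q(sl_2)`, with `v = q^{1/2}` and
`{k} = v^k - v^{-k}`.  The `N`-coloured Jones polynomial `cjones N n w v` of the closure of a braid
word `w` on `n + 1` strands is the entry at the highest weight vector of the partial quantum trace
(over all strands but the first one) of the operator of `w` on the tensor power of the
`N`-dimensional irreducible representation.  The crossings carry the framing correction and the
unknot has value `1`.  The Kashaev invariant is its value at `v = exp (π i / N)`, that is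
`q = exp (2 π i / N)`.

The volume is the maximal volume of the angle structures of an ideal decomposition, and the
Chern-Simons invariant is given by Neumann's formula (W. Neumann, Extended Bloch group and the
Cheeger-Chern-Simons class): for a decomposition of a hyperbolic manifold into ideal tetrahedra
(some of the cusps may be filled), with compatible orders of the ideal vertices and a flattening,
`i (vol + i CS) = ∑ ± L(z; p, q)` modulo `π²`, where the sum runs over the tetrahedra and `L` is the
extended Rogers dilogarithm.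
-/

set_option autoImplicit false

namespace Pool.Agent.Y482.Arc.ClosedThreeBraids

open Finset Filter Topology

/-! ### The coloured Jones polynomial -/

/-- `{n} = v^n - v^{-n}` -/
noncomputable def br (v : ℂ) (n : ℤ) : ℂ := v ^ n - v ^ (-n)

/-- `{n}! = {1} {2} ⋯ {n}` -/
noncomputable def brf (v : ℂ) (n : ℕ) : ℂ := ∏ j ∈ range n, br v ((j : ℤ) + 1)

/-- The positive crossing: the R-matrix of `U_q(sl_2)` on `V_N ⊗ V_N`, `V_N` with basis
`e_0, …, e_{N-1}`, times the framing factor `v^{-(N^2-1)/2}`; `crossP N v p q` is the coefficient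
of `e_{p.1} ⊗ e_{p.2}` in the image of `e_{q.1} ⊗ e_{q.2}`:
`e_i ⊗ e_j ↦ ∑_n v^{-(N-1)(1+i+j) + 2(i-n)(j+n) + n(n-1)/2}
({j+n}! / ({j}! {n}!)) ∏_{t<n} {N-i+t} e_{j+n} ⊗ e_{i-n}`. -/
noncomputable def crossP (N : ℕ) (v : ℂ) : Matrix (Fin N × Fin N) (Fin N × Fin N) ℂ :=
  fun p q => if (p.1 : ℕ) + p.2 = q.1 + q.2 ∧ (q.2 : ℕ) ≤ p.1 then
    v ^ (-((N : ℤ) - 1) * (1 + (q.1 : ℕ) + (q.2 : ℕ)) + 2 * (p.1 : ℕ) * (p.2 : ℕ)) *
      v ^ (((p.1 : ℕ) - q.2) * ((p.1 : ℕ) - q.2 - 1) / 2) *
      (brf v p.1 / (brf v q.2 * brf v ((p.1 : ℕ) - q.2))) *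
      ∏ t ∈ range ((p.1 : ℕ) - q.2), br v ((N : ℤ) - (q.1 : ℕ) + t)
    else 0

/-- The negative crossing, inverse of `crossP N v`:
`e_i ⊗ e_j ↦ ∑_n (-1)^n v^{(N-1)(1+i+j) - 2ij - n(n-1)/2}
({i+n}! / ({i}! {n}!)) ∏_{t<n} {N-j+t} e_{j-n} ⊗ e_{i+n}`. -/
noncomputable def crossN (N : ℕ) (v : ℂ) : Matrix (Fin N × Fin N) (Fin N × Fin N) ℂ :=
  fun p q => if (p.1 : ℕ) + p.2 = q.1 + q.2 ∧ (q.1 : ℕ) ≤ p.2 then
    (-1) ^ ((p.2 : ℕ) - q.1) *
      v ^ (((N : ℤ) - 1) * (1 + (q.1 : ℕ) + (q.2 : ℕ)) - 2 * (q.1 : ℕ) * (q.2 : ℕ)) /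
      v ^ (((p.2 : ℕ) - q.1) * ((p.2 : ℕ) - q.1 - 1) / 2) *
      (brf v p.2 / (brf v q.1 * brf v ((p.2 : ℕ) - q.1))) *
      ∏ t ∈ range ((p.2 : ℕ) - q.1), br v ((N : ℤ) - (q.2 : ℕ) + t)
    else 0

/-- The braid generator `s_k` on `n` strands (it acts on the strands number `k` and `k + 1`,
counted from `0`) by the crossing matrix `A`. -/
def gen {ι : Type} [DecidableEq ι] (A : Matrix (ι × ι) (ι × ι) ℂ) (n k : ℕ) :
    Matrix (Fin n → ι) (Fin n → ι) ℂ :=
  fun s t => if h : k + 1 < n then
    (if ∀ j : Fin n, (j : ℕ) ≠ k → (j : ℕ) ≠ k + 1 → s j = t j then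
      A (s ⟨k, by omega⟩, s ⟨k + 1, h⟩) (t ⟨k, by omega⟩, t ⟨k + 1, h⟩) else 0)
    else (if s = t then 1 else 0)

/-- The operator of a braid word on `n` strands: the letter `(k, true)` is `s_k`, the letter
`(k, false)` is its inverse; `P` and `Q` are the matrices of the two crossings. -/
def rep {ι : Type} [Fintype ι] [DecidableEq ι] (P Q : Matrix (ι × ι) (ι × ι) ℂ) (n : ℕ)
    (w : List (ℕ × Bool)) : Matrix (Fin n → ι) (Fin n → ι) ℂ :=
  (w.map fun g => gen (if g.2 then P else Q) n g.1).prod

/-- The partial trace over all strands but the first one, with weights `k`; `n + 1` strands. -/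
def tail {ι : Type} [Fintype ι] (k : ι → ℂ) (n : ℕ)
    (A : Matrix (Fin (n + 1) → ι) (Fin (n + 1) → ι) ℂ) : Matrix ι ι ℂ :=
  fun i j => ∑ s : Fin n → ι, (∏ x, k (s x)) * A (Fin.cons i s) (Fin.cons j s)

/-- The `N`-coloured Jones polynomial (unknot `= 1`) of the closure of the braid word `w` on
`n + 1` strands, at `q = v^2`: the entry at the highest weight vector `e_0` of the partial quantum
trace, with the weights `v^{N-1-2x}` of `K`. -/
noncomputable def cjones (N n : ℕ) (w : List (ℕ × Bool)) (v : ℂ) : ℂ :=
  if h : 0 < N then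
    tail (fun x : Fin N => v ^ ((N : ℤ) - 1 - 2 * (x : ℕ))) n
      (rep (crossP N v) (crossN N v) (n + 1) w) ⟨0, h⟩ ⟨0, h⟩ else 0

/-! ### The links -/

/-- `s_k^a`, `a` an integer -/
def twist (k : ℕ) (a : ℤ) : List (ℕ × Bool) := List.replicate a.natAbs (k, decide (0 ≤ a))

/-- `m` full twists `(s_1 s_2 s_1)^{2 m}`, `m` an integer; the strands are numbered `0`, `1`, `2`,
and `s_1`, `s_2` are the generators number `0` and `1` (the full twist is central, so that
`(s_1^{-1} s_2^{-1} s_1^{-1})^2` is its inverse). -/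
def fullTwists (m : ℤ) : List (ℕ × Bool) :=
  (List.replicate m.natAbs [(0, decide (0 ≤ m)), (1, decide (0 ≤ m)), (0, decide (0 ≤ m)),
    (0, decide (0 ≤ m)), (1, decide (0 ≤ m)), (0, decide (0 ≤ m))]).flatten

/-- The braid `(s_1 s_2 s_1)^{2 m} s_1^{a_1} s_2^{b_1} ⋯ s_1^{a_k} s_2^{b_k}` on three strands; the
list is `[(a_1, b_1), …, (a_k, b_k)]`. -/
def braid (m : ℤ) (l : List (ℤ × ℤ)) : List (ℕ × Bool) :=
  fullTwists m ++ (l.map fun q => twist 0 q.1 ++ twist 1 q.2).flatten

/-- The exponents of the mirror image. -/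
def mirror (l : List (ℤ × ℤ)) : List (ℤ × ℤ) := l.map fun p => (-p.1, -p.2)

/-- `v_N = exp (π i / N)`, so that `q = v_N^2 = exp (2 π i / N)`. -/
noncomputable def root (N : ℕ) : ℂ := Complex.exp (Real.pi * Complex.I / N)

/-- The Kashaev invariant of the closure of a braid on three strands. -/
noncomputable def kashaev (w : List (ℕ × Bool)) (N : ℕ) : ℂ := cjones N 2 w (root N)

/-! ### The hyperbolic volume

Let `n = 2 k` and let `w_0, …, w_{n-1}` be the exponents `a_1, b_1, …, a_k, b_k`, in a cyclic order.
Let `A` be the braid axis; the complement of the closed braid and `A` fibres over the circle, the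
fibres are spheres with four punctures, three of them on the strands of the braid and one on `A`.
Let `C_j` be the circle around the two strands of the twist region number `j` in a fibre `F_j` which
meets this region.  The complement of the closed braid is the Dehn filling, along one slope for
every circle `C_j` and one slope for `A`, of the complement of the link with `A` and all the `C_j`
added; the latter depends on the exponents only up to half twists along thrice-punctured spheres.
The part between the fibres `F_j` and `F_{j+1}` is the union of two ideal octahedra, front and back.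
Let `C_j` enclose the strands `p, q` and `C_{j+1}` the strands `q, r` (the front is the side from
which one sees `p, q, r` from the left to the right if `F_{j+1}` is above `F_j`).  The ideal vertices
of both octahedra are `C_j`, `C_{j+1}` (opposite), `p`, `r` (opposite) and `q`, `A` (opposite).  The
front octahedron is divided by the diagonal `p r`, the back one by the diagonal `q A`, into four
ideal tetrahedra, two of them with the vertex `C_j`, two with the vertex `C_{j+1}`.  The dihedral
angles (the angles of the triangles in the links of `C_j` and `C_{j+1}`) are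
* `f j` (front, vertex `C_j`): triangle `p, q, r` with the angles `a, b, c`, triangle `p, r, A` with
  the angles `a', b', c'`;
* `g j` (front, vertex `C_{j+1}`): triangle `r, q, p` with the angles `a, b, c`, triangle `r, p, A`
  with the angles `a', b', c'`;
* `F j` (back, vertex `C_j`): triangle `q, p, A` with the angles `a, b, c`, triangle `q, A, r` with
  the angles `a', b', c'`;
* `G j` (back, vertex `C_{j+1}`): triangle `q, r, A` with the angles `a, b, c`, triangle `q, A, p`
  with the angles `a', b', c'`. -/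

/-- Lobachevsky's function `Λ(x) = -∫_0^x log |2 sin t| dt`. -/
noncomputable def Lob (x : ℝ) : ℝ := -∫ t in (0 : ℝ)..x, Real.log |2 * Real.sin t|

/-- The dihedral angles of two tetrahedra with a common ideal vertex. -/
structure Angles where
  a : ℝ
  b : ℝ
  c : ℝ
  a' : ℝ
  b' : ℝ
  c' : ℝ

namespace Angles

/-- The angles are positive, and those of a tetrahedron at one ideal vertex have the sum `π`. -/
def Positive (f : Angles) : Prop :=
  0 < f.a ∧ 0 < f.b ∧ 0 < f.c ∧ f.a + f.b + f.c = Real.pi ∧
    0 < f.a' ∧ 0 < f.b' ∧ 0 < f.c' ∧ f.a' + f.b' + f.c' = Real.pi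

/-- The volume of the two tetrahedra. -/
noncomputable def vol (f : Angles) : ℝ :=
  Lob f.a + Lob f.b + Lob f.c + (Lob f.a' + Lob f.b' + Lob f.c')

/-- The rotation angle (holonomy of the circle) of a path along the edge of an octahedron from one
enclosed strand to the other one, the half twist. -/
noncomputable def halfTwist (f : Angles) : ℝ := f.a + f.a' + f.b - Real.pi

/-- The rotation angle of a path through the octahedron, from one side of the fibre to the other,
around the circle. -/
noncomputable def across (f : Angles) : ℝ := f.a + f.a' + f.c' - Real.pi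

end Angles

/-- The conditions at the circle `C = C_{j+1}` with exponent `w`: `f g F G` are the angles between
the fibres `F_j` and `F_{j+1}`, and `f' g' F' G'` those between `F_{j+1}` and `F_{j+2}`.  The sums of
the dihedral angles around the edges in the fibre `F_{j+1}` and around the edges from `C` to the
strands and to the axis are `2 π`, and the circle is filled. -/
structure CircleCondition (w : ℤ) (f g F G f' g' F' G' : Angles) : Prop where
  /-- the edge between the two strands enclosed by `C` -/
  strands : f.a + g.c + F.b' + G.c + (f'.c + g'.a + F'.c + G'.b') = 2 * Real.pi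
  /-- the edge between the third strand and the axis -/
  axis : f.b' + g.a' + F.a + G.a' + (f'.a' + g'.b' + F'.a' + G'.a) = 2 * Real.pi
  /-- the edge from `C` to the axis -/
  toAxis : g.c' + G.c + G.b' + (f'.c' + F'.c + F'.b') = 2 * Real.pi
  /-- the edge from `C` to the third strand -/
  toThird : g.c + g.b' + G.c' + (f'.c + f'.b' + F'.c') = 2 * Real.pi
  /-- the edges from `C` to the two strands enclosed by `C`, `w` even -/
  even : Even w → g.a + g.a' + G.b + (f'.a + f'.a' + F'.b) = 2 * Real.pi ∧
    g.b + G.a + G.a' + (f'.b + F'.a + F'.a') = 2 * Real.pi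
  /-- the edges from `C` to the two strands enclosed by `C`, `w` odd -/
  odd : Odd w → g.b + G.a + G.a' + (f'.a + f'.a' + F'.b) = 2 * Real.pi ∧
    g.a + g.a' + G.b + (f'.b + F'.a + F'.a') = 2 * Real.pi
  /-- the rotation angle of two parallel copies of the filling slope of `C` (once around `C`, with
  `w` half twists) is `4 π` -/
  fill : f'.across + F'.across - (g.across + G.across) =
    4 * Real.pi + w * (f'.halfTwist + F'.halfTwist)

/-- Rotation angle of the part between `F_j` and `F_{j+1}` of two parallel copies of the meridian of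
the axis (the closure, `m = 0`, of a point of the fibre) on the boundary torus of the axis. -/
noncomputable def meridianPart (f g F G : Angles) : ℝ :=
  f.c' + f.b' + g.a' - Real.pi + (F.a' + G.a + G.c + G.b' - Real.pi)

/-- Rotation angle of the boundary of the fibre on the boundary torus of the axis. -/
noncomputable def longitude (f g F G : Angles) : ℝ :=
  f.b' + g.a' + g.c' + G.c + G.b' + F.a + G.a' - 2 * Real.pi

/-- The exponents in cyclic order. -/
def weights (l : List (ℤ × ℤ)) : List ℤ := (l.map fun p => [p.1, p.2]).flatten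

/-- Angle structures of the complement of the closure of `braid m l` (the indices are taken modulo
`2 k`): the angles are positive, the sums around the diagonals of the octahedra are `2 π`, the
conditions at the circles hold, and the axis is filled (two parallel copies of the filling slope:
meridian plus `m` times longitude). -/
structure IsAngle (m : ℤ) (l : List (ℤ × ℤ)) (f g F G : ℕ → Angles) : Prop where
  positive : ∀ j < 2 * l.length,
    (f j).Positive ∧ (g j).Positive ∧ (F j).Positive ∧ (G j).Positive
  diagonals : ∀ j < 2 * l.length, (f j).b + (f j).c' + ((g j).b + (g j).c') = 2 * Real.pi ∧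
    (F j).b + (F j).c' + ((G j).b + (G j).c') = 2 * Real.pi
  circles : ∀ j < 2 * l.length, CircleCondition ((weights l).getD ((j + 1) % (2 * l.length)) 0)
    (f j) (g j) (F j) (G j) (f ((j + 1) % (2 * l.length))) (g ((j + 1) % (2 * l.length)))
    (F ((j + 1) % (2 * l.length))) (G ((j + 1) % (2 * l.length)))
  axis : ∑ j ∈ range (2 * l.length), meridianPart (f j) (g j) (F j) (G j) =
    -(4 * Real.pi + 2 * m * longitude (f 0) (g 0) (F 0) (G 0))

/-- The volume of an angle structure: two octahedra, eight tetrahedra, for every `j`. -/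
noncomputable def vol (l : List (ℤ × ℤ)) (f g F G : ℕ → Angles) : ℝ :=
  ∑ j ∈ range (2 * l.length), ((f j).vol + (g j).vol + (F j).vol + (G j).vol)

/-! ### The Chern-Simons invariant

*Shapes.*  The complete structure is the angle structure of maximal volume; a tetrahedron with the
dihedral angles `a, b, c` has the shape parameters `shape a b c`, `shape b c a`, `shape c a b` at
the edges with these angles.

*Labels.*  A flattening assigns to the edges of each tetrahedron the logarithmic parameters
`log z - π i A`, where `z` is the shape parameter and `A` an integer, the label (opposite edges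
have the same label); the sum of the three logarithmic parameters has to be `0`, that is the sum of
the three labels is `1`.  The sum of the logarithmic parameters around every edge of the
decomposition has to be `0`, that is the sum of the labels is `2` (that of the angles is `2 π`).
The logarithmic parameter of a curve along which a cusp is filled, and of the curves on a cusp which
is not filled, has to be `0`.  `IsFlat` contains these conditions for the cusps of the circles and of
the axis, which are filled.  At the cusps of the strands they need not be imposed: the label of the meridian of a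
strand is the sum of the labels at an edge from `C_j` to the strand and at an edge in the fibre,
minus `2`, that is `0`; the label of a longitude is even (the labels of all closed curves on the
cusps of the circles and the axis are even), and a flattening in the strict sense is obtained by
adding multiples of the vectors which Neumann and Zagier associate with the meridians, which changes
the sum of the dilogarithms by multiples of `π²` only.

*Order.*  In every tetrahedron the ideal vertex on a circle `C_j` comes first, followed by the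
vertices `p, q, r, A` in the order of four numbers `n_1, …, n_4`.

*Orientation.*  The tetrahedra are positively oriented (the triangles above are seen
counterclockwise from `C_j` and `C_{j+1}`); this is the standard orientation of `S³` if `s_k` is a
left-handed crossing (then `cjones` is the coloured Jones polynomial in the usual convention, with
`q⁻¹ V(L₊) - q V(L₋) = (q^{1/2} - q^{-1/2}) V(L₀)` up to the sign of `q^{1/2}`).  If, with the opposite
convention `q V(L₊) - q⁻¹ V(L₋)` of Murakami and Murakami, `s_k` is a right-handed crossing, it is the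
opposite orientation: then `C` is minus the Chern-Simons invariant of the complement, and
`(V + i C) / (2 π)` is `Φ / (2 π i)` with `Φ = CS + i vol`. -/

/-- Euler's dilogarithm `Li₂(z) = -∫_0^1 log (1 - t z) dt / t`, principal branch. -/
noncomputable def dilog (z : ℂ) : ℂ := -∫ t in (0 : ℝ)..1, Complex.log (1 - t * z) / t

/-- The extended Rogers dilogarithm of Neumann:
`L(z; p, q) = Li₂(z) + log z log(1 - z) / 2 - π² / 6 + (π i / 2) (q log z + p log(1 - z))`,
principal branches. -/
noncomputable def extRogers (z : ℂ) (p q : ℤ) : ℂ :=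
  dilog z + Complex.log z * Complex.log (1 - z) / 2 - (Real.pi : ℂ) ^ 2 / 6 +
    Real.pi * Complex.I / 2 * (q * Complex.log z + p * Complex.log (1 - z))

/-- The shape parameter of an ideal tetrahedron with the dihedral angles `a, b, c`, at the edge with
the angle `a` (`|z| = sin b / sin c`, `arg z = a`; then `1 / (1 - z)` and `1 - 1 / z` are the
parameters at the edges with the angles `b` and `c`). -/
noncomputable def shape (a b c : ℝ) : ℂ :=
  ((Real.sin b / Real.sin c : ℝ) : ℂ) * Complex.exp (Complex.I * a)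

/-- The term of a tetrahedron with the vertices `v_0 < v_1 < v_2 < v_3`, if this order is that of
its orientation: `z` is the shape parameter at the edge `v_0 v_1`, and `A`, `B` are the labels at
the edges `v_0 v_1`, `v_1 v_2` (logarithmic parameters `log z - π i A`, `- log (1 - z) - π i B`). -/
noncomputable def posTerm (z : ℂ) (A B : ℤ) : ℂ := extRogers z (-A) (-B)

/-- The term of a tetrahedron with the vertices `v_0 < v_1 < v_2 < v_3`, if this order is opposite
to its orientation: `z` is the shape parameter at the edge `v_0 v_1` (so that the cross ratio of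
`v_0, v_1, v_2, v_3` is `1 / z`), and `A`, `C` are the labels at `v_0 v_1`, `v_1 v_2` (logarithmic
parameters of the ordered tetrahedron: `log (1 / z) + π i A`, `- log (1 - 1 / z) + π i C`). -/
noncomputable def negTerm (z : ℂ) (A C : ℤ) : ℂ := -extRogers (1 / z) A C

/-- The term of a tetrahedron with the vertices `v, x, y, w` (in this orientation), of which `v` is
the first one; `a, b, c` are the angles and `A, B, C` the labels at the edges `v x`, `v y`, `v w`
(and at the opposite edges `y w`, `w x`, `x y`), and `x, y, w` are numbers which give the order of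
the vertices. -/
noncomputable def tetTerm (a b c : ℝ) (A B C : ℤ) (x y w : ℤ) : ℂ :=
  if x < y ∧ y < w then negTerm (shape a b c) A C
  else if x < w ∧ w < y then posTerm (shape a b c) A B
  else if y < w ∧ w < x then negTerm (shape b c a) B A
  else if y < x ∧ x < w then posTerm (shape b c a) B C
  else if w < x ∧ x < y then negTerm (shape c a b) C B
  else posTerm (shape c a b) C A

/-- The labels of two tetrahedra, at the same edges as the angles `Angles`. -/
structure Labels where
  a : ℤ
  b : ℤ
  c : ℤ
  a' : ℤ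
  b' : ℤ
  c' : ℤ

/-- The two tetrahedra `v k_1 k_2 k_3`, `v k_1 k_3 k_4` of a quadrilateral `k_1 k_2 k_3 k_4` seen
from `v`, with the angles `f` and the labels `F`; the numbers `n_i` give the order of the `k_i`. -/
noncomputable def twoTerms (f : Angles) (F : Labels) (n1 n2 n3 n4 : ℤ) : ℂ :=
  tetTerm f.a f.b f.c F.a F.b F.c n1 n2 n3 + tetTerm f.a' f.b' f.c' F.a' F.b' F.c' n1 n3 n4

/-- The labels in the two octahedra between `F_j` and `F_{j+1}` (at the same edges as the angles
`f j`, `g j`, `F j`, `G j`), and the order of the vertices `p`, `q`, `r`, `A`. -/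
structure Piece where
  f : Labels
  g : Labels
  F : Labels
  G : Labels
  n1 : ℤ
  n2 : ℤ
  n3 : ℤ
  n4 : ℤ

namespace Piece

/-- The contribution of the eight tetrahedra between `F_j` and `F_{j+1}`. -/
noncomputable def term (f g F G : Angles) (x : Piece) : ℂ :=
  twoTerms f x.f x.n1 x.n2 x.n3 x.n4 + twoTerms g x.g x.n3 x.n2 x.n1 x.n4 +
    (twoTerms F x.F x.n2 x.n1 x.n4 x.n3 + twoTerms G x.G x.n2 x.n3 x.n4 x.n1)

/-- The labels of each tetrahedron have the sum `1`, those around the diagonals have the sum `2`,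
and the vertices `p, q, r, A` are ordered. -/
def Inner (x : Piece) : Prop :=
  (x.f.a + x.f.b + x.f.c = 1 ∧ x.f.a' + x.f.b' + x.f.c' = 1) ∧
  (x.g.a + x.g.b + x.g.c = 1 ∧ x.g.a' + x.g.b' + x.g.c' = 1) ∧
  (x.F.a + x.F.b + x.F.c = 1 ∧ x.F.a' + x.F.b' + x.F.c' = 1) ∧
  (x.G.a + x.G.b + x.G.c = 1 ∧ x.G.a' + x.G.b' + x.G.c' = 1) ∧
  x.f.b + x.f.c' + (x.g.b + x.g.c') = 2 ∧ x.F.b + x.F.c' + (x.G.b + x.G.c') = 2 ∧
  x.n1 ≠ x.n2 ∧ x.n1 ≠ x.n3 ∧ x.n1 ≠ x.n4 ∧ x.n2 ≠ x.n3 ∧ x.n2 ≠ x.n4 ∧ x.n3 ≠ x.n4

/-- The conditions at the fibre `F_j`.  The sum of the labels is `1` at each of the edges from `C_j`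
to `p`, `q`, `r`, `A`, and at each of the edges `p q`, `r A` in the fibre; every such edge also
belongs to the octahedra between `F_{j-1}` and `F_j`, so that the sum around it is `2`.  And the
label of a half twist around `C_j` is `0`, in front and at the back. -/
def Bottom (x : Piece) : Prop :=
  x.f.a + x.f.a' + x.F.b = 1 ∧ x.f.b + (x.F.a + x.F.a') = 1 ∧
  x.f.c + x.f.b' + x.F.c' = 1 ∧ x.f.c' + (x.F.c + x.F.b') = 1 ∧
  x.f.c + x.g.a + (x.F.c + x.G.b') = 1 ∧ x.f.a' + x.g.b' + (x.F.a' + x.G.a) = 1 ∧
  x.f.a + x.f.a' + x.f.b - 1 = 0 ∧ x.F.a + x.F.a' + x.F.b - 1 = 0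

/-- The conditions at the fibre `F_{j+1}`, as in `Bottom`: the edges from `C_{j+1}` to `r`, `q`, `p`,
`A`, the edges `q r`, `p A` in the fibre, and the half twists around `C_{j+1}`. -/
def Top (x : Piece) : Prop :=
  x.g.a + x.g.a' + x.G.b = 1 ∧ x.g.b + (x.G.a + x.G.a') = 1 ∧
  x.g.c + x.g.b' + x.G.c' = 1 ∧ x.g.c' + (x.G.c + x.G.b') = 1 ∧
  x.g.c + x.f.a + (x.G.c + x.F.b') = 1 ∧ x.g.a' + x.f.b' + (x.G.a' + x.F.a) = 1 ∧
  x.g.a + x.g.a' + x.g.b - 1 = 0 ∧ x.G.a + x.G.a' + x.G.b - 1 = 0

/-- The label of the path `across` at `C_j`, through the front octahedron. -/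
def low (x : Piece) : ℤ := x.f.a + x.f.a' + x.f.c' - 1

/-- The label of the path `across` at `C_{j+1}`, through the front octahedron. -/
def high (x : Piece) : ℤ := x.g.a + x.g.a' + x.g.c' - 1

/-- The label of the part of the meridian of the axis in the front octahedron. -/
def along (x : Piece) : ℤ := x.f.c' + x.f.b' + x.g.a' - 1

end Piece

/-- The conditions at the circle `C = C_{j+1}` with exponent `w` between the pieces `x` (below) and
`y` (above): the label of the closed curve around `C` is `2`, like the rotation angle in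
`CircleCondition` (half twists have the label `0`), and the orders of the vertices agree on the two
edges of the decomposition in the fibre `F_{j+1}`, namely `q r` of `x`, which is `q p` or (if `w` is
odd) `p q` of `y`, and `p A` of `x`, which is `r A` of `y`. -/
structure CircleFlat (w : ℤ) (x y : Piece) : Prop where
  fill : y.low - x.high = 2
  even : Even w → (x.n2 < x.n3 ↔ y.n2 < y.n1)
  odd : Odd w → (x.n2 < x.n3 ↔ y.n1 < y.n2)
  out : x.n1 < x.n4 ↔ y.n3 < y.n4

/-- The flattenings (with orders of the vertices); the label of the meridian of the axis is `-2`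
(like the rotation angle in `IsAngle`; the label of the longitude is `0`). -/
structure IsFlat (l : List (ℤ × ℤ)) (x : ℕ → Piece) : Prop where
  inner : ∀ j < 2 * l.length, (x j).Inner ∧ (x j).Bottom ∧ (x j).Top
  circles : ∀ j < 2 * l.length, CircleFlat ((weights l).getD ((j + 1) % (2 * l.length)) 0)
    (x j) (x ((j + 1) % (2 * l.length)))
  axis : ∑ j ∈ range (2 * l.length), (x j).along = -2

/-- The sum of the extended Rogers dilogarithms over the eight tetrahedra for every `j`. -/
noncomputable def dilogSum (l : List (ℤ × ℤ)) (f g F G : ℕ → Angles) (x : ℕ → Piece) : ℂ :=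
  ∑ j ∈ range (2 * l.length), (x j).term (f j) (g j) (F j) (G j)

/-- `V + i C` is the complex volume `vol + i CS` modulo `i π²` of the complement of the closure of
`braid m l`, by Neumann's formula: `V` is the maximal volume of the angle structures, there is a
flattening, and for every angle structure of volume `V` and every flattening the sum of the extended
Rogers dilogarithms is `i (V + i C)` modulo `π²`. -/
structure ComplexVolume (m : ℤ) (l : List (ℤ × ℤ)) (V C : ℝ) : Prop where
  volume : IsGreatest {W : ℝ | ∃ f g F G : ℕ → Angles, IsAngle m l f g F G ∧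
    vol l f g F G = W} V
  flat : ∃ x : ℕ → Piece, IsFlat l x
  sum : ∀ (f g F G : ℕ → Angles) (x : ℕ → Piece), IsAngle m l f g F G → vol l f g F G = V →
    IsFlat l x → ∃ j : ℤ,
      dilogSum l f g F G x = Complex.I * (V + Complex.I * C) + j * (Real.pi : ℂ) ^ 2

/-- The conclusion of the complexified volume conjecture for the sequence `J`: nonvanishing,
`2 π log |J N| / N → V`, `J (N + 1) / J N → exp ((V + i C) / 2 π)`, and moreover
`J N ∼ κ N^{3/2} exp (N (V + i C) / 2 π)` with a constant `κ ≠ 0`. -/
def Asymptotics (J : ℕ → ℂ) (V C : ℝ) : Prop :=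
  (∀ᶠ N : ℕ in atTop, J N ≠ 0) ∧
  Tendsto (fun N : ℕ => 2 * Real.pi * (Real.log ‖J N‖ / N)) atTop (𝓝 V) ∧
  Tendsto (fun N : ℕ => J (N + 1) / J N) atTop
    (𝓝 (Complex.exp ((V + Complex.I * C) / (2 * Real.pi)))) ∧
  ∃ κ : ℂ, κ ≠ 0 ∧ Tendsto (fun N : ℕ => J N / (((N : ℝ) ^ (3 / 2 : ℝ) : ℝ) *
    Complex.exp ((V + Complex.I * C) / (2 * Real.pi) * N))) atTop (𝓝 κ)

/-! ### Checks of the definitions (not part of the result) -/

/-- For `N = 2` the crossings satisfy the skein relation of the Jones polynomial. -/
theorem skein (v : ℂ) (hv : v ≠ 0) (h1 : br v 1 ≠ 0) :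
    v ^ 2 • crossP 2 v - (v ^ 2)⁻¹ • crossN 2 v =
      (v - v⁻¹) • (1 : Matrix (Fin 2 × Fin 2) (Fin 2 × Fin 2) ℂ) :=
  Pool.Agent.H550R3.Jones.taskSanSkein v hv h1

/-- The two crossings are inverse to each other. -/
theorem cross_inverse (N : ℕ) (v : ℂ) (hv : v ≠ 0)
    (h : ∀ k : ℕ, 0 < k → k < N → br v k ≠ 0) :
    crossP N v * crossN N v = 1 ∧ crossN N v * crossP N v = 1 :=
  Pool.Agent.H309R4.Jones.SanI.taskSanInv Pool.Agent.H345J.taskMod Pool.Agent.H345J.taskInv
    Pool.Agent.H559R3.J.taskCross N v ⟨hv, h⟩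

/-- The Yang-Baxter equation, for every colour. -/
theorem yang_baxter (N : ℕ) (v : ℂ) (hv : v ≠ 0) (h : ∀ k : ℕ, 0 < k → k < N → br v k ≠ 0) :
    gen (crossP N v) 3 0 * gen (crossP N v) 3 1 * gen (crossP N v) 3 0 =
      gen (crossP N v) 3 1 * gen (crossP N v) 3 0 * gen (crossP N v) 3 1 :=
  Pool.Agent.H927R2.J.SanYB.taskSanYB Pool.Agent.H345J.taskMod Pool.Agent.H345J.taskInt
    Pool.Agent.H345J.taskInv Pool.Agent.H667J.taskHex1 Pool.Agent.H22R3.J.taskNat
    Pool.Agent.H559R3.J.taskCross N v ⟨hv, h⟩

/-- Curls may be removed: the framing is normalised. -/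
theorem curl (N : ℕ) (v : ℂ) (hv : v ≠ 0) (h : ∀ k : ℕ, 0 < k → k < N → br v k ≠ 0) :
    (fun i j => ∑ x : Fin N, v ^ ((N : ℤ) - 1 - 2 * (x : ℕ)) * crossP N v (i, x) (j, x)) =
      (1 : Matrix (Fin N) (Fin N) ℂ) ∧
    (fun i j => ∑ x : Fin N, v ^ ((N : ℤ) - 1 - 2 * (x : ℕ)) * crossN N v (i, x) (j, x)) =
      (1 : Matrix (Fin N) (Fin N) ℂ) :=
  Pool.Agent.H105R3.JSan.taskSanCurl N v ⟨hv, h⟩

/-- The unknot has the value `1`. -/
theorem unknot (N : ℕ) (v : ℂ) (hN : 0 < N) (hv : v ≠ 0)
    (h : ∀ k : ℕ, 0 < k → k < N → br v k ≠ 0) :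
    cjones N 0 [] v = 1 ∧ cjones N 1 [(0, true)] v = 1 ∧ cjones N 1 [(0, false)] v = 1 :=
  Pool.Agent.H309R4.Jones.SanU.taskSanUnknot N v hN ⟨hv, h⟩

/-! ### Bridges -/

open Pool.Agent.W719.AR (Fl)
open Pool.Agent.W719.AX (EXY)

/-- conversion of angles -/
def toFl (f : Angles) : Fl := ⟨f.a, f.b, f.c, f.a', f.b', f.c'⟩

/-- conversion of angles -/
def ofFl (f : Fl) : Angles := ⟨f.a, f.b, f.c, f.a', f.b', f.c'⟩

/-- conversion of labels -/
def toLb (f : Labels) : Pool.Agent.Y482.Cv.Labels := ⟨f.a, f.b, f.c, f.a', f.b', f.c'⟩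

/-- conversion of labels -/
def ofLb (f : Pool.Agent.Y482.Cv.Labels) : Labels := ⟨f.a, f.b, f.c, f.a', f.b', f.c'⟩

/-- conversion of pieces -/
def toPc (x : Piece) : Pool.Agent.Y482.Cv.Piece :=
  ⟨toLb x.f, toLb x.g, toLb x.F, toLb x.G, x.n1, x.n2, x.n3, x.n4⟩

/-- conversion of pieces -/
def ofPc (x : Pool.Agent.Y482.Cv.Piece) : Piece :=
  ⟨ofLb x.f, ofLb x.g, ofLb x.F, ofLb x.G, x.n1, x.n2, x.n3, x.n4⟩

lemma circle_iff (w : ℤ) (f g F G f' g' F' G' : Angles) :
    Pool.Agent.Y482.Chi.VX w (toFl f) (toFl g) (toFl F) (toFl G) (toFl f') (toFl g') (toFl F')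
      (toFl G') ↔ CircleCondition w f g F G f' g' F' G' :=
  ⟨fun h => ⟨h.strand, h.axis, h.ca, h.cr, h.even, h.odd, h.fill⟩,
    fun h => ⟨h.strands, h.axis, h.toAxis, h.toThird, h.even, h.odd, h.fill⟩⟩

lemma braid_iff (m : ℤ) (l : List (ℤ × ℤ)) (f g F G : ℕ → Angles) :
    Pool.Agent.Y482.Chi.ChiAng (2 * l.length) (Pool.Agent.Y481.cw l) m (fun j => toFl (f j))
      (fun j => toFl (g j)) (fun j => toFl (F j)) (fun j => toFl (G j)) ↔ IsAngle m l f g F G :=
  ⟨fun h => ⟨h.pos, h.diag, fun j hj => (circle_iff _ _ _ _ _ _ _ _ _).1 (h.vert j hj), h.fill⟩,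
    fun h => ⟨h.positive, h.diagonals,
      fun j hj => (circle_iff _ _ _ _ _ _ _ _ _).2 (h.circles j hj), h.axis⟩⟩

lemma flat_iff (l : List (ℤ × ℤ)) (x : ℕ → Piece) :
    Pool.Agent.Y482.Cv.RFlat (2 * l.length) (Pool.Agent.Y481.cw l) (-2) (fun j => toPc (x j)) ↔
      IsFlat l x :=
  ⟨fun h => ⟨h.inner, fun j hj => ⟨(h.vert j hj).fill, (h.vert j hj).even, (h.vert j hj).odd,
      (h.vert j hj).out⟩, h.axis⟩,
    fun h => ⟨h.inner, fun j hj => ⟨(h.circles j hj).fill, (h.circles j hj).even,
      (h.circles j hj).odd, (h.circles j hj).out⟩, h.axis⟩⟩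

lemma sum_eq (l : List (ℤ × ℤ)) (f g F G : ℕ → Angles) (x : ℕ → Piece) :
    dilogSum l f g F G x = Pool.Agent.Y482.Cv.csum (2 * l.length) (fun j => toFl (f j))
      (fun j => toFl (g j)) (fun j => toFl (F j)) (fun j => toFl (G j)) (fun j => toPc (x j)) := rfl

/-- transport of the complex volume -/
lemma complexVolume_of {m : ℤ} {l : List (ℤ × ℤ)} {V C : ℝ}
    (h1 : IsGreatest {W : ℝ | ∃ f g F G : ℕ → Fl,
      Pool.Agent.Y482.Chi.ChiAng (2 * l.length) (Pool.Agent.Y481.cw l) m f g F G ∧
      Pool.Agent.Y482.Chi.chiVol (2 * l.length) f g F G = W} V)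
    (h2 : ∃ x, Pool.Agent.Y482.Cv.RFlat (2 * l.length) (Pool.Agent.Y481.cw l) (-2) x)
    (h3 : ∀ (f g F G : ℕ → Fl) (x : ℕ → Pool.Agent.Y482.Cv.Piece),
      Pool.Agent.Y482.Chi.ChiAng (2 * l.length) (Pool.Agent.Y481.cw l) m f g F G →
      Pool.Agent.Y482.Chi.chiVol (2 * l.length) f g F G = V →
      Pool.Agent.Y482.Cv.RFlat (2 * l.length) (Pool.Agent.Y481.cw l) (-2) x → ∃ j : ℤ,
      Pool.Agent.Y482.Cv.csum (2 * l.length) f g F G x =
        Complex.I * (V + Complex.I * C) + j * (Real.pi : ℂ) ^ 2) :
    ComplexVolume m l V C := by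
  refine ⟨?_, ?_, ?_⟩
  · have e : {W : ℝ | ∃ f g F G : ℕ → Angles, IsAngle m l f g F G ∧ vol l f g F G = W} =
        {W : ℝ | ∃ f g F G : ℕ → Fl,
          Pool.Agent.Y482.Chi.ChiAng (2 * l.length) (Pool.Agent.Y481.cw l) m f g F G ∧
          Pool.Agent.Y482.Chi.chiVol (2 * l.length) f g F G = W} := by
      ext W
      constructor
      · rintro ⟨f, g, F, G, k1, k2⟩
        exact ⟨fun j => toFl (f j), fun j => toFl (g j), fun j => toFl (F j), fun j => toFl (G j),
          (braid_iff m l f g F G).2 k1, k2⟩
      · rintro ⟨f, g, F, G, k1, k2⟩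
        exact ⟨fun j => ofFl (f j), fun j => ofFl (g j), fun j => ofFl (F j), fun j => ofFl (G j),
          (braid_iff m l _ _ _ _).1 k1, k2⟩
    rw [e]
    exact h1
  · obtain ⟨x, hx⟩ := h2
    exact ⟨fun j => ofPc (x j), (flat_iff l _).1 hx⟩
  · intro f g F G x hP hV hx
    rw [sum_eq]
    exact h3 _ _ _ _ _ ((braid_iff m l f g F G).2 hP) hV ((flat_iff l x).2 hx)

lemma asymptotics_of {J : ℕ → ℂ} {V C : ℝ} {y : ℕ → ℂ} (hy : y 0 ≠ 0)
    (h : EXY J ((V + Complex.I * C) / (2 * Real.pi)) y) : Asymptotics J V C := by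
  obtain ⟨r1, r2, _, r4, _⟩ := Pool.Agent.W460.AX.rat _ _ y hy h
  refine ⟨r1, ?_, r2, y 0, hy, h.leading⟩
  have e1 : 2 * Real.pi * (((V : ℂ) + Complex.I * C) / (2 * Real.pi)).re = V := by
    have e2 : ((V : ℂ) + Complex.I * C) / (2 * Real.pi) =
        ((V / (2 * Real.pi) : ℝ) : ℂ) + ((C / (2 * Real.pi) : ℝ) : ℂ) * Complex.I := by
      push_cast
      ring
    rw [e2, Complex.add_re, Complex.re_ofReal_mul, Complex.I_re, mul_zero, add_zero,
      Complex.ofReal_re]
    field_simp
  rw [e1] at r4
  exact r4

lemma cont (w : List (ℕ × Bool)) (N : ℕ) : ContinuousAt (cjones N 2 w) (root N) := by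
  have hv : root N = EvenVol.v0 N := rfl
  rw [hv]
  refine Pool.Agent.H756R3.J.taskCont N (EvenVol.v0 N) (Complex.exp_ne_zero _) ?_ _ _
  intro k hk0 hkN
  exact Pool.Agent.W715.VC.br_ne (by omega) (by omega)

lemma bound_of {M : ℝ} {x : ℤ} (hx : (⌈M⌉₊ : ℤ) ≤ |x|) : M ≤ |(x : ℝ)| := by
  have h1 : ((⌈M⌉₊ : ℤ) : ℝ) ≤ ((|x| : ℤ) : ℝ) := by exact_mod_cast hx
  rw [Int.cast_abs] at h1
  have h2 := Nat.le_ceil M
  have h3 : ((⌈M⌉₊ : ℤ) : ℝ) = (⌈M⌉₊ : ℝ) := by push_cast; rfl
  linarith

/-- **The complexified volume conjecture for closed 3-braids with large exponents.**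
There is an absolute constant `M` with the following property.  Let `m ≥ 0` and
`l = [(a_1, b_1), …, (a_k, b_k)]`, `k ≥ 1`, `(k, m) ≠ (1, 0)`, with integers `a_i`, `b_i` of any signs
and of absolute value at least `M`.  Let `L` be the closure of the 3-braid
`(s_1 s_2 s_1)^{2 m} s_1^{a_1} s_2^{b_1} ⋯ s_1^{a_k} s_2^{b_k}`, and let `L*` be its mirror image,
the closure for `-m`, `-a_i`, `-b_i` (this covers the negative numbers of full twists).
(1) For every `N ≥ 1` the coloured Jones polynomials of `L` and `L*` are continuous at `v_N`, so that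
`kashaev` is the value at `q = e^(2 π i / N)` in the usual sense.
(2) There are real numbers `V`, `C` such that `V + i C` is the complex volume of the complement of
`L`: `V` is the maximal volume of the angle structures (by Casson and Rivin a point of maximum is
the complete hyperbolic structure, and `V` is the hyperbolic volume), and `C` is modulo `π²` the
Chern-Simons invariant by Neumann's formula, for every flattening; the complex volume of the
complement of `L*` is then `V - i C`.
(3) `J_N(L) ≠ 0` for large `N`, `2 π log |J_N(L)| / N → V`,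
`J_{N+1}(L) / J_N(L) → exp ((V + i C) / 2 π)`, and `J_N(L) / (N^{3/2} exp (N (V + i C) / 2 π))` has a
limit other than `0`.
(4) The same holds for `L*` with `V - i C`. -/
theorem result : ∃ M : ℕ, ∀ (m : ℕ) (l : List (ℤ × ℤ)), l ≠ [] → ¬ (l.length = 1 ∧ m = 0) →
    (∀ q ∈ l, (M : ℤ) ≤ |q.1| ∧ (M : ℤ) ≤ |q.2|) →
    (∀ N : ℕ, 1 ≤ N → ContinuousAt (cjones N 2 (braid m l)) (root N) ∧
      ContinuousAt (cjones N 2 (braid (-m) (mirror l))) (root N)) ∧
    ∃ V C : ℝ, ComplexVolume m l V C ∧ Asymptotics (kashaev (braid m l)) V C ∧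
      Asymptotics (kashaev (braid (-m) (mirror l))) V (-C) := by
  obtain ⟨M, h⟩ := Pool.Agent.Y472.J.cx
  refine ⟨⌈M⌉₊, fun m l hl hkm hls => ⟨fun N _ => ⟨cont _ N, cont _ N⟩, ?_⟩⟩
  obtain ⟨V, C, y, g1, g2, g3, g4, g5⟩ := h l m hl hkm (fun q hq => ⟨bound_of (hls q hq).1,
    bound_of (hls q hq).2⟩)
  refine ⟨V, C, complexVolume_of g1 g2 g3, asymptotics_of g4 g5, ?_⟩
  exact asymptotics_of (y := fun k => (starRingEnd ℂ) (y k))
    (fun h0 => g4 ((map_eq_zero (starRingEnd ℂ)).1 h0))
    (Pool.Agent.Y482.Cv.exy_mirror hl g5)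

end Pool.Agent.Y482.Arc.ClosedThreeBraids
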